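import Pool.Agent.helper28.FPS.A
import Pool.Agent.helper55.FP.Paths
import Pool.Agent.helper55.FP.BK

/-! # Sharpness, part B: exponential decay below `pc` -/

set_option autoImplicit false

open MeasureTheory Set Filter Topology
open scoped ENNReal

namespace Pool.Agent.helper28.FPS

open Pool.Agent.helper55.FP

variable {d : ℕ}

theorem tau_le_sum {p : ℝ} (hp : 0 ≤ p) (hp1 : p ≤ 1) (S : Finset (V d)) (h0 : (0 : V d) ∈ S)
    {b : V d} (hb : b ∉ S) :
    tau p b ≤ ∑ e ∈ bd S, p * tauW p (↑S) 0 (inn S e) * tau p (b - out S e) := by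
  have hev : ∀ (W : Set (V d)) (x y : V d), (P d).real (Ev p (cw W x y)) = tauW p W x y := by
    intro W x y
    unfold tauW
    congr 1
    ext U
    exact (conn_op_iff).symm
  have hsub : {U : Cfg d | Conn (op p U) univ 0 b} ⊆ ⋃ e ∈ bd S,
      Ev p (dj (cw (↑S) 0 (inn S e)) (dj {M | e ∈ M} (cw univ (out S e) b))) := by
    intro U hU
    obtain ⟨K, hK, hKU⟩ := conn_op_iff.1 hU
    obtain ⟨u, hu, v, hv, e, hj, hdj⟩ := exit_dj hK (S := (↑S : Set (V d))) h0 hb
    have hv' : v ∉ S := hv.2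
    obtain ⟨h1, h2, h3⟩ := bd_of_joins hj hu hv'
    rw [univ_inter, ← h2, ← h3] at hdj
    exact mem_biUnion h1 ⟨K, hdj, hKU⟩
  have h1 : tau p b = (P d).real {U : Cfg d | Conn (op p U) univ 0 b} := rfl
  rw [h1]
  refine (measureReal_mono hsub (measure_ne_top (P d) _)).trans ((measureReal_biUnion_finset_le _ _).trans ?_)
  apply Finset.sum_le_sum
  intro e _
  refine (bk_dj _ _ _).trans ?_
  have h2 := bk_dj p {M : Finset (E d) | e ∈ M} (cw univ (out S e) b)
  have h3 : Ev p {M : Finset (E d) | e ∈ M} = {U : Cfg d | U e ≤ p} := by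
    ext U
    constructor
    · rintro ⟨K, hK, hU⟩
      exact hU e hK
    · intro h
      refine ⟨{e}, Finset.mem_singleton_self e, ?_⟩
      intro e' he'
      rw [Finset.mem_singleton] at he'
      rw [he']
      exact h
  rw [h3, prob_le e hp hp1, hev, tauW_univ] at h2
  rw [hev]
  have h4 := mul_le_mul_of_nonneg_left h2 (tauW_nonneg p (↑S) 0 (inn S e))
  refine h4.trans (le_of_eq ?_)
  ring

theorem norm_out_le {S : Finset (V d)} {e : E d} (he : e ∈ bd S) {r : ℝ}
    (hS : ∀ x ∈ S, ‖x‖ ≤ r) : ‖out S e‖ ≤ r + 1 := by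
  obtain ⟨h1, h2, h3⟩ := bd_spec he
  have h4 : ‖out S e - inn S e‖ ≤ 1 := Adj.norm ⟨e, h3⟩
  have h5 : out S e = inn S e + (out S e - inn S e) := by abel
  rw [h5]
  exact (norm_add_le _ _).trans (add_le_add (hS _ h1) h4)

theorem tau_le_pow {p : ℝ} (hp : 0 ≤ p) (hp1 : p ≤ 1) (S : Finset (V d)) (h0 : (0 : V d) ∈ S)
    {L : ℝ} (hL : 1 ≤ L) (hS : ∀ x ∈ S, ‖x‖ ≤ L - 1) {r : ℝ} (hr : phi p S ≤ r) (k : ℕ) :
    ∀ b : V d, k * L ≤ ‖b‖ → tau p b ≤ r ^ k := by
  have hr0 : 0 ≤ r := (phi_nonneg hp S).trans hr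
  induction k with
  | zero =>
    intro b _
    rw [pow_zero]
    exact tauW_le_one _ _ _ _
  | succ k ih =>
    intro b hb
    push_cast at hb
    have hkL : 0 ≤ (k : ℝ) * L := by positivity
    have hbS : b ∉ S := by
      intro h
      have := hS b h
      nlinarith
    refine (tau_le_sum hp hp1 S h0 hbS).trans ?_
    have h1 : ∀ e ∈ bd S, p * tauW p (↑S) 0 (inn S e) * tau p (b - out S e) ≤
        p * tauW p (↑S) 0 (inn S e) * r ^ k := by
      intro e he
      apply mul_le_mul_of_nonneg_left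
      · apply ih
        have h2 := norm_out_le he hS
        have h3 : ‖b‖ - ‖out S e‖ ≤ ‖b - out S e‖ := norm_sub_norm_le _ _
        nlinarith
      · exact mul_nonneg hp (tauW_nonneg _ _ _ _)
    refine (Finset.sum_le_sum h1).trans ?_
    rw [← Finset.sum_mul, ← Finset.mul_sum, pow_succ, mul_comm (r ^ k)]
    exact mul_le_mul_of_nonneg_right hr (by positivity)

theorem exp_decay {p : ℝ} (hp : 0 ≤ p) (hp1 : p ≤ 1) (S : Finset (V d)) (h0 : (0 : V d) ∈ S)
    (hphi : phi p S < 1) :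
    ∃ C > 0, ∃ c > 0, ∀ x : V d, tau p x ≤ C * Real.exp (-c * ‖x‖) := by
  obtain ⟨L, hL, hS⟩ : ∃ L : ℝ, 1 ≤ L ∧ ∀ x ∈ S, ‖x‖ ≤ L - 1 := by
    refine ⟨1 + ∑ x ∈ S, ‖x‖, ?_, ?_⟩
    · have : 0 ≤ ∑ x ∈ S, ‖x‖ := Finset.sum_nonneg fun _ _ => norm_nonneg _
      linarith
    · intro x hx
      have : ‖x‖ ≤ ∑ x ∈ S, ‖x‖ :=
        Finset.single_le_sum (f := fun x : V d => ‖x‖) (fun _ _ => norm_nonneg _) hx
      linarith
  set r : ℝ := max (phi p S) (1 / 2) with hr
  have hr0 : 0 < r := lt_of_lt_of_le (by norm_num) (le_max_right _ _)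
  have hr1 : r < 1 := max_lt hphi (by norm_num)
  have hlog : 0 < -Real.log r := by
    have := Real.log_neg hr0 hr1
    linarith
  have hL0 : 0 < L := by linarith
  refine ⟨Real.exp (-Real.log r), Real.exp_pos _, -Real.log r / L, div_pos hlog hL0, ?_⟩
  intro x
  have h1 := tau_le_pow hp hp1 S h0 hL hS (le_max_left (phi p S) (1 / 2)) ⌊‖x‖ / L⌋₊ x (by
    rw [← le_div_iff₀ hL0]
    exact Nat.floor_le (by positivity))
  refine h1.trans ?_
  rw [← hr, ← Real.exp_add, ← Real.rpow_natCast, Real.rpow_def_of_pos hr0]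
  apply Real.exp_le_exp.2
  have h2 : ‖x‖ / L - 1 ≤ (⌊‖x‖ / L⌋₊ : ℝ) := by
    have := Nat.lt_floor_add_one (‖x‖ / L)
    linarith
  have h3 : -(-Real.log r / L) * ‖x‖ = Real.log r * (‖x‖ / L) := by
    field_simp
  rw [h3]
  nlinarith

/-- exponentially decaying functions on the lattice are summable -/
theorem summable_exp {c : ℝ} (hc : 0 < c) : Summable fun x : V d => Real.exp (-c * ‖x‖) := by
  rcases Nat.eq_zero_or_pos d with hd | hd
  · subst hd
    exact Summable.of_finite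
  have hd' : (0 : ℝ) < d := by exact_mod_cast hd
  set g : ℤ → ℝ := fun k => Real.exp (-(c / d) * |(k : ℝ)|) with hg
  have hgs : Summable g := by
    have h1 : Summable fun n : ℕ => Real.exp (-(c / d) * n) := by
      have h2 : ∀ n : ℕ, Real.exp (-(c / d) * n) = (Real.exp (-(c / d))) ^ n := by
        intro n
        rw [← Real.exp_nat_mul]
        ring_nf
      simp only [h2]
      apply summable_geometric_of_lt_one (Real.exp_pos _).le
      rw [Real.exp_lt_one_iff]
      have : 0 < c / d := by positivity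
      linarith
    apply Summable.of_nat_of_neg
    · simpa [hg] using h1
    · simpa [hg] using h1
  have hg0 : ∀ k, 0 ≤ g k := fun k => (Real.exp_pos _).le
  apply summable_of_sum_le (c := (∑' k, g k) ^ d) (fun x => (Real.exp_pos _).le)
  intro F
  obtain ⟨N, hN⟩ : ∃ N : ℤ, ∀ x ∈ F, ∀ i, x i ∈ Finset.Icc (-N) N := by
    refine ⟨∑ x ∈ F, ∑ i, |x i|, ?_⟩
    intro x hx i
    have h1 : |x i| ≤ ∑ i, |x i| :=
      Finset.single_le_sum (f := fun i => |x i|) (fun _ _ => abs_nonneg _) (Finset.mem_univ i)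
    have h2 : ∑ i, |x i| ≤ ∑ x ∈ F, ∑ i, |x i| :=
      Finset.single_le_sum (f := fun x : V d => ∑ i, |x i|)
        (fun _ _ => Finset.sum_nonneg fun _ _ => abs_nonneg _) hx
    rw [Finset.mem_Icc]
    exact abs_le.1 (h1.trans h2)
  have hsub : F ⊆ Fintype.piFinset fun _ : Fin d => Finset.Icc (-N) N := by
    intro x hx
    rw [Fintype.mem_piFinset]
    exact hN x hx
  have hle : ∀ x : V d, Real.exp (-c * ‖x‖) ≤ ∏ i, g (x i) := by
    intro x
    rw [hg]
    simp only
    rw [← Real.exp_sum]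
    apply Real.exp_le_exp.2
    rw [← Finset.mul_sum]
    have h1 : ∑ i, |(x i : ℝ)| ≤ d * ‖x‖ := by
      have h2 : ∀ i ∈ (Finset.univ : Finset (Fin d)), |(x i : ℝ)| ≤ ‖x‖ := by
        intro i _
        rw [← Int.norm_eq_abs]
        exact norm_le_pi_norm x i
      refine (Finset.sum_le_card_nsmul _ _ _ h2).trans ?_
      rw [Finset.card_univ, Fintype.card_fin, nsmul_eq_mul]
    have h3 : c / d * ∑ i, |(x i : ℝ)| ≤ c / d * (d * ‖x‖) :=
      mul_le_mul_of_nonneg_left h1 (by positivity)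
    have h4 : c / d * (d * ‖x‖) = c * ‖x‖ := by field_simp
    linarith
  calc ∑ x ∈ F, Real.exp (-c * ‖x‖) ≤ ∑ x ∈ F, ∏ i, g (x i) :=
        Finset.sum_le_sum fun x _ => hle x
    _ ≤ ∑ x ∈ Fintype.piFinset fun _ : Fin d => Finset.Icc (-N) N, ∏ i, g (x i) :=
        Finset.sum_le_sum_of_subset_of_nonneg hsub
          (fun x _ _ => Finset.prod_nonneg fun i _ => hg0 _)
    _ = ∏ i : Fin d, ∑ k ∈ Finset.Icc (-N) N, g k := by
        rw [Finset.prod_univ_sum]
    _ ≤ ∏ i : Fin d, ∑' k, g k := by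
        apply Finset.prod_le_prod
        · intro i _
          exact Finset.sum_nonneg fun _ _ => hg0 _
        · intro i _
          exact hgs.sum_le_tsum _ (fun k _ => hg0 k)
    _ = (∑' k, g k) ^ d := by
        rw [Finset.prod_const, Finset.card_univ, Fintype.card_fin]

theorem summable_tau {p C c : ℝ} (hc : 0 < c)
    (h : ∀ x : V d, tau p x ≤ C * Real.exp (-c * ‖x‖)) : Summable fun x : V d => tau p x :=
  Summable.of_nonneg_of_le (fun _ => tauW_nonneg _ _ _ _) h ((summable_exp hc).mul_left C)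

end Pool.Agent.helper28.FPS
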