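import Pool.Agent.helper55.FP.Defs
import Pool.Agent.helper55.FP.Conn
import Pool.Agent.helper55.FP.Meas
import Pool.Agent.helper55.FP.Resample
import Pool.Agent.helper55.FP.Symm

/-! # Sharpness, part A: finite boundary, the functional `phi`, elementary probabilities -/

set_option autoImplicit false

open MeasureTheory Set Filter Topology
open scoped ENNReal

namespace Pool.Agent.helper28.FPS

open Pool.Agent.helper55.FP

variable {d : ℕ}

theorem touch_finite {S : Set (V d)} (hS : S.Finite) : (touch S).Finite := by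
  have h1 : touch S ⊆ (S ×ˢ (univ : Set (Fin d))) ∪
      (⋃ i : Fin d, (fun x : V d => ((x - Pi.single i 1, i) : E d)) '' S) := by
    rintro ⟨x, i⟩ (h | h)
    · exact Or.inl ⟨h, mem_univ _⟩
    · right
      rw [mem_iUnion]
      exact ⟨i, tip (x, i), h, by simp [tip]⟩
  exact ((hS.prod finite_univ).union (Set.finite_iUnion fun i => hS.image _)).subset h1

theorem inner_subset_touch (S : Set (V d)) : inner S ⊆ touch S := fun _ h => Or.inl h.1

theorem closedBall_finite (r : ℝ) : {x : V d | ‖x‖ ≤ r}.Finite := by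
  apply (Set.finite_Icc (fun _ : Fin d => -⌈r⌉) (fun _ : Fin d => ⌈r⌉)).subset
  intro x hx
  have h1 : ∀ i, |x i| ≤ ⌈r⌉ := by
    intro i
    have h2 := (norm_le_pi_norm x i).trans hx
    rw [Int.norm_eq_abs] at h2
    have h3 : ((|x i| : ℤ) : ℝ) ≤ (⌈r⌉ : ℝ) := by
      rw [Int.cast_abs]
      exact h2.trans (Int.le_ceil r)
    exact_mod_cast h3
  constructor
  · intro i
    exact (abs_le.1 (h1 i)).1
  · intro i
    exact (abs_le.1 (h1 i)).2

open Classical in
/-- boundary edges of a finite set -/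
noncomputable def bd (S : Finset (V d)) : Finset (E d) :=
  (touch_finite S.finite_toSet).toFinset.filter (fun e => ¬ (e.1 ∈ S ∧ tip e ∈ S))

open Classical in
/-- inner endpoint -/
noncomputable def inn (S : Finset (V d)) (e : E d) : V d := if e.1 ∈ S then e.1 else tip e

open Classical in
/-- outer endpoint -/
noncomputable def out (S : Finset (V d)) (e : E d) : V d := if e.1 ∈ S then tip e else e.1

theorem mem_bd {S : Finset (V d)} {e : E d} :
    e ∈ bd S ↔ (e.1 ∈ S ∧ tip e ∉ S) ∨ (e.1 ∉ S ∧ tip e ∈ S) := by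
  unfold bd
  rw [Finset.mem_filter, Set.Finite.mem_toFinset]
  unfold touch
  rw [Set.mem_ofPred_eq, Finset.mem_coe, Finset.mem_coe]
  tauto

theorem bd_spec {S : Finset (V d)} {e : E d} (h : e ∈ bd S) :
    inn S e ∈ S ∧ out S e ∉ S ∧ Joins e (inn S e) (out S e) := by
  unfold inn out
  rcases mem_bd.1 h with ⟨h1, h2⟩ | ⟨h1, h2⟩
  · rw [if_pos h1, if_pos h1]
    exact ⟨h1, h2, Or.inl ⟨rfl, rfl⟩⟩
  · rw [if_neg h1, if_neg h1]
    exact ⟨h2, h1, Or.inr ⟨rfl, rfl⟩⟩

theorem bd_of_joins {S : Finset (V d)} {e : E d} {u v : V d} (h : Joins e u v) (hu : u ∈ S)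
    (hv : v ∉ S) : e ∈ bd S ∧ inn S e = u ∧ out S e = v := by
  unfold inn out
  rcases h with ⟨rfl, rfl⟩ | ⟨rfl, rfl⟩
  · refine ⟨mem_bd.2 (Or.inl ⟨hu, hv⟩), ?_, ?_⟩
    · rw [if_pos hu]
    · rw [if_pos hu]
  · refine ⟨mem_bd.2 (Or.inr ⟨hv, hu⟩), ?_, ?_⟩
    · rw [if_neg hv]
    · rw [if_neg hv]

/-- the Duminil-Copin - Tassion functional -/
noncomputable def phi (p : ℝ) (S : Finset (V d)) : ℝ :=
  p * ∑ e ∈ bd S, tauW p (↑S) 0 (inn S e)

theorem tauW_nonneg (p : ℝ) (W : Set (V d)) (a b : V d) : 0 ≤ tauW p W a b := measureReal_nonneg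

theorem tauW_le_one (p : ℝ) (W : Set (V d)) (a b : V d) : tauW p W a b ≤ 1 := measureReal_le_one

theorem phi_nonneg {p : ℝ} (hp : 0 ≤ p) (S : Finset (V d)) : 0 ≤ phi p S :=
  mul_nonneg hp (Finset.sum_nonneg fun _ _ => tauW_nonneg _ _ _ _)

theorem phi_mono {p q : ℝ} (hp : 0 ≤ p) (hpq : p ≤ q) (S : Finset (V d)) : phi p S ≤ phi q S := by
  unfold phi
  apply mul_le_mul hpq
  · apply Finset.sum_le_sum
    intro e _
    exact tauW_mono hpq (subset_refl _) _ _
  · exact Finset.sum_nonneg fun _ _ => tauW_nonneg _ _ _ _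
  · exact hp.trans hpq

theorem step_inner {O : Set (E d)} {W : Set (V d)} {a b : V d} (h : Step O W a b) :
    Step (O ∩ inner W) W a b := by
  obtain ⟨ha, hb, e, he, hj⟩ := h
  refine ⟨ha, hb, e, ⟨he, ?_⟩, hj⟩
  rcases hj with ⟨rfl, rfl⟩ | ⟨rfl, rfl⟩
  · exact ⟨ha, hb⟩
  · exact ⟨hb, ha⟩

theorem conn_inner {O : Set (E d)} {W : Set (V d)} {a b : V d} (h : Conn O W a b) :
    Conn (O ∩ inner W) W a b :=
  ⟨h.1, Relation.ReflTransGen.mono (fun _ _ h => step_inner h) _ _ h.2⟩

theorem ae_pos_le_one (e : E d) : ∀ᵐ U ∂(P d), 0 < U e ∧ U e ≤ 1 := by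
  have h := prob_level e (le_refl (0 : ℝ)) zero_le_one (le_refl 1)
  have hm : MeasurableSet {U : Cfg d | 0 < U e ∧ U e ≤ 1} :=
    (measurableSet_lt measurable_const (measurable_pi_apply e)).inter
      (measurableSet_le (measurable_pi_apply e) measurable_const)
  rw [sub_zero] at h
  have h1 : P d {U : Cfg d | 0 < U e ∧ U e ≤ 1} = 1 := by
    rw [measureReal_def] at h
    rw [← ENNReal.ofReal_toReal (measure_ne_top (P d) {U : Cfg d | 0 < U e ∧ U e ≤ 1}), h,
      ENNReal.ofReal_one]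
  exact (prob_compl_eq_zero_iff hm).2 h1

theorem prob_le (e : E d) {q : ℝ} (hq0 : 0 ≤ q) (hq : q ≤ 1) :
    (P d).real {U : Cfg d | U e ≤ q} = q := by
  have h := prob_level e (le_refl (0 : ℝ)) hq0 hq
  rw [sub_zero] at h
  conv_rhs => rw [← h]
  apply measureReal_congr
  filter_upwards [ae_pos_le_one e] with U hU
  apply propext
  exact ⟨fun h => ⟨hU.1, h⟩, fun h => h.2⟩

/-- Lipschitz continuity in `p` for finite sets. -/
theorem tauW_lip {p q : ℝ} (hp : 0 ≤ p) (hpq : p ≤ q) (hq : q ≤ 1) (S : Finset (V d))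
    (a b : V d) : tauW q ↑S a b ≤ tauW p ↑S a b +
      (touch_finite S.finite_toSet).toFinset.card * (q - p) := by
  set T := (touch_finite S.finite_toSet).toFinset with hT
  unfold tauW
  have h1 : {U : Cfg d | Conn (op q U) ↑S a b} ⊆ {U : Cfg d | Conn (op p U) ↑S a b} ∪
      ⋃ e ∈ T, {U : Cfg d | p < U e ∧ U e ≤ q} := by
    intro U hU
    by_cases h : ∃ e ∈ T, p < U e ∧ U e ≤ q
    · right
      obtain ⟨e, he, h2⟩ := h
      exact mem_biUnion he h2
    · left
      push Not at h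
      have h2 := conn_inner hU
      apply h2.mono _ (subset_refl _)
      rintro e ⟨he, he2⟩
      by_contra hcon
      have h3 : p < U e := not_le.1 hcon
      have h4 : e ∈ T := by
        rw [hT, Set.Finite.mem_toFinset]
        exact inner_subset_touch _ he2
      exact absurd (h e h4 h3) (not_lt.2 he)
  refine (measureReal_mono h1).trans ((measureReal_union_le _ _).trans ?_)
  gcongr
  refine (measureReal_biUnion_finset_le _ _).trans ?_
  rw [Finset.sum_congr rfl (fun e _ => prob_level e hp hpq hq), Finset.sum_const, nsmul_eq_mul]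

theorem bonf {Ω : Type*} [MeasurableSpace Ω] (μ : Measure Ω) [IsProbabilityMeasure μ]
    {ι : Type*} (s : Finset ι) (A : ι → Set Ω) (hA : ∀ i ∈ s, MeasurableSet (A i)) {ε : ℝ}
    (hε : 0 ≤ ε) (h : ∀ i ∈ s, ∀ j ∈ s, i ≠ j → μ.real (A i ∩ A j) ≤ ε) :
    ∑ i ∈ s, μ.real (A i) ≤ μ.real (⋃ i ∈ s, A i) + (s.card : ℝ) ^ 2 * ε := by
  classical
  induction s using Finset.induction_on with
  | empty => simp
  | insert i s hi ih =>
    have ih' := ih (fun j hj => hA j (Finset.mem_insert_of_mem hj))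
      (fun j hj k hk => h j (Finset.mem_insert_of_mem hj) k (Finset.mem_insert_of_mem hk))
    rw [Finset.sum_insert hi, Finset.card_insert_of_notMem hi, Finset.set_biUnion_insert]
    have h1 : μ.real (A i ∪ ⋃ j ∈ s, A j) = μ.real (A i) + μ.real (⋃ j ∈ s, A j)
        - μ.real (A i ∩ ⋃ j ∈ s, A j) := by
      have := measureReal_union_add_inter (μ := μ) (s := A i) (t := ⋃ j ∈ s, A j)
        (Finset.measurableSet_biUnion s (fun j hj => hA j (Finset.mem_insert_of_mem hj)))
        (measure_ne_top μ _) (measure_ne_top μ _)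
      linarith
    have h2 : μ.real (A i ∩ ⋃ j ∈ s, A j) ≤ s.card * ε := by
      rw [inter_iUnion₂]
      refine (measureReal_biUnion_finset_le _ _).trans ?_
      rw [← nsmul_eq_mul, ← Finset.sum_const]
      apply Finset.sum_le_sum
      intro j hj
      apply h i (Finset.mem_insert_self _ _) j (Finset.mem_insert_of_mem hj)
      rintro rfl
      exact hi hj
    rw [h1]
    push_cast
    have h3 : ((s.card : ℝ) + 1) ^ 2 * ε = (s.card : ℝ) ^ 2 * ε + 2 * (s.card * ε) + ε := by ring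
    have h4 : 0 ≤ (s.card : ℝ) * ε := by positivity
    linarith

end Pool.Agent.helper28.FPS
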