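import Pool.Agent.helper28.FPS.A
import Pool.Agent.helper55.FP.Indep

/-! # Sharpness, part C: the differential inequality of Duminil-Copin and Tassion -/

set_option autoImplicit false

open MeasureTheory Set Filter Topology
open scoped ENNReal

namespace Pool.Agent.helper28.FPS

open Pool.Agent.helper55.FP

variable {d : ℕ}

/-- the points of `W` which are not connected to the target `T` -/
def SS (W T : Set (V d)) (O : Set (E d)) : Set (V d) := {x ∈ W | ¬ ∃ y ∈ T, Conn O W x y}

/-- no edge of `O` joins `S` and `W \ S`, and all the points of `W \ S` are connected to `T` in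
`W \ S`. -/
def Sep (W T S : Set (V d)) (O : Set (E d)) : Prop :=
  (∀ e ∈ O, ∀ u ∈ S, ∀ v ∈ W \ S, ¬ Joins e u v) ∧ ∀ x ∈ W \ S, ∃ y ∈ T, Conn O (W \ S) x y

theorem SS_sub (W T : Set (V d)) (O : Set (E d)) : SS W T O ⊆ W := fun _ h => h.1

theorem Sep_of_SS {W T S : Set (V d)} {O : Set (E d)} (h : SS W T O = S) : Sep W T S O := by
  subst h
  constructor
  · rintro e he u ⟨hu, hu2⟩ v ⟨hv, hv2⟩ hj
    have h1 : ∃ y ∈ T, Conn O W v y := by
      by_contra hcon
      exact hv2 ⟨hv, hcon⟩
    obtain ⟨y, hy, hc⟩ := h1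
    apply hu2
    refine ⟨y, hy, Conn.trans ?_ hc⟩
    exact ⟨hu, Relation.ReflTransGen.single ⟨hu, hv, e, he, hj⟩⟩
  · rintro x ⟨hx, hx2⟩
    have h1 : ∃ y ∈ T, Conn O W x y := by
      by_contra hcon
      exact hx2 ⟨hx, hcon⟩
    obtain ⟨y, hy, -, hc⟩ := h1
    refine ⟨y, hy, ⟨hx, hx2⟩, ?_⟩
    have key : ∀ z, Relation.ReflTransGen (Step O W) z y → z ∈ W →
        Relation.ReflTransGen (Step O (W \ SS W T O)) z y := by
      intro z hz
      induction hz using Relation.ReflTransGen.head_induction_on with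
      | refl => intro _; exact Relation.ReflTransGen.refl
      | head h1 h2 ih =>
        intro hzW
        obtain ⟨ha, hb, e, he, hj⟩ := h1
        refine Relation.ReflTransGen.head ⟨⟨ha, ?_⟩, ⟨hb, ?_⟩, e, he, hj⟩ (ih hb)
        · rintro ⟨-, h3⟩
          apply h3
          exact ⟨y, hy, ha, Relation.ReflTransGen.head ⟨ha, hb, e, he, hj⟩ h2⟩
        · rintro ⟨-, h3⟩
          exact h3 ⟨y, hy, hb, h2⟩
    exact key x hc hx

theorem SS_of_Sep {W T S : Set (V d)} {O : Set (E d)} (hSW : S ⊆ W) (hST : Disjoint S T)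
    (h : Sep W T S O) : SS W T O = S := by
  obtain ⟨h1, h2⟩ := h
  apply Subset.antisymm
  · rintro x ⟨hx, hx2⟩
    by_contra hxS
    obtain ⟨y, hy, hc⟩ := h2 x ⟨hx, hxS⟩
    exact hx2 ⟨y, hy, hc.mono (subset_refl _) sdiff_subset⟩
  · intro x hx
    refine ⟨hSW hx, ?_⟩
    rintro ⟨y, hy, -, hc⟩
    have key : ∀ z, Relation.ReflTransGen (Step O W) x z → z ∈ S := by
      intro z hz
      induction hz with
      | refl => exact hx
      | tail h3 h4 ih =>
        obtain ⟨ha, hb, e, he, hj⟩ := h4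
        by_contra hcS
        exact h1 e he _ ih _ ⟨hb, hcS⟩ hj
    exact Set.disjoint_left.1 hST (key y hc) hy

/-- the event that the set of points not connected to `T` is `S` -/
def XS (p : ℝ) (W T S : Set (V d)) : Set (Cfg d) := {U | SS W T (op p U) = S}

/-- `0` is connected to `T` in `W` -/
def AA (p : ℝ) (W T : Set (V d)) : Set (Cfg d) := {U | ∃ y ∈ T, Conn (op p U) W 0 y}

theorem measurableSet_conn_to (p : ℝ) (W T : Set (V d)) (x : V d) :
    MeasurableSet {U : Cfg d | ∃ y ∈ T, Conn (op p U) W x y} := by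
  have h : {U : Cfg d | ∃ y ∈ T, Conn (op p U) W x y} = ⋃ y ∈ T, {U | Conn (op p U) W x y} := by
    ext U
    simp
  rw [h]
  exact MeasurableSet.biUnion (Set.to_countable T) fun y _ => measurableSet_conn _ _ _ _

theorem measurableSet_AA (p : ℝ) (W T : Set (V d)) : MeasurableSet (AA (d := d) p W T) :=
  measurableSet_conn_to p W T 0

theorem measurableSet_XS (p : ℝ) (W T S : Set (V d)) : MeasurableSet (XS p W T S) := by
  have h : XS p W T S = ⋂ x : V d, {U : Cfg d | x ∈ SS W T (op p U) ↔ x ∈ S} := by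
    ext U
    simp only [XS, mem_ofPred_eq, mem_iInter, Set.ext_iff]
  rw [h]
  apply MeasurableSet.iInter
  intro x
  have h1 : MeasurableSet {U : Cfg d | x ∈ SS W T (op p U)} := by
    by_cases hx : x ∈ W
    · have h2 : {U : Cfg d | x ∈ SS W T (op p U)} = {U : Cfg d | ∃ y ∈ T, Conn (op p U) W x y}ᶜ := by
        ext U
        simp only [SS, mem_ofPred_eq, mem_compl_iff]
        exact ⟨fun h => h.2, fun h => ⟨hx, h⟩⟩
      rw [h2]
      exact (measurableSet_conn_to p W T x).compl
    · have h2 : {U : Cfg d | x ∈ SS W T (op p U)} = ∅ := by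
        ext U
        simp only [SS, mem_ofPred_eq, mem_empty_iff_false, iff_false]
        exact fun h => hx h.1
      rw [h2]
      exact MeasurableSet.empty
  by_cases hS : x ∈ S
  · simp only [hS, iff_true]
    exact h1
  · simp only [hS, iff_false]
    exact h1.compl

theorem Sep_congr {p : ℝ} {W T S : Set (V d)} {U U' : Cfg d} (hU : ∀ e ∈ (inner S)ᶜ, U e = U' e)
    (h : Sep W T S (op p U)) : Sep W T S (op p U') := by
  obtain ⟨h1, h2⟩ := h
  constructor
  · intro e he u hu v hv hj
    have h3 : e ∈ (inner S)ᶜ := by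
      rintro ⟨h4, h5⟩
      rcases hj with ⟨rfl, rfl⟩ | ⟨rfl, rfl⟩
      · exact hv.2 h5
      · exact hv.2 h4
    have h6 : e ∈ op p U := by
      have : U' e ≤ p := he
      rw [← hU e h3] at this
      exact this
    exact h1 e h6 u hu v hv hj
  · intro x hx
    obtain ⟨y, hy, hc⟩ := h2 x hx
    refine ⟨y, hy, (conn_inner hc).mono ?_ (subset_refl _)⟩
    rintro e ⟨he, he2⟩
    have h3 : e ∈ (inner S)ᶜ := fun h4 => he2.1.2 h4.1
    have : U e ≤ p := he
    rw [hU e h3] at this
    exact this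

theorem XS_congr {p : ℝ} {W T S : Set (V d)} (hSW : S ⊆ W) (hST : Disjoint S T) {U U' : Cfg d}
    (hU : ∀ e ∈ (inner S)ᶜ, U e = U' e) : U ∈ XS p W T S ↔ U' ∈ XS p W T S := by
  constructor
  · intro h
    exact SS_of_Sep hSW hST (Sep_congr hU (Sep_of_SS h))
  · intro h
    exact SS_of_Sep hSW hST (Sep_congr (fun e he => (hU e he).symm) (Sep_of_SS h))

theorem op_update {p : ℝ} (hp : p ≤ 1) {U : Cfg d} {e : E d} (he : p < U e) :
    op p (Function.update U e 2) = op p U := by
  ext e'
  by_cases h : e' = e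
  · subst h
    simp only [op, mem_ofPred_eq, Function.update_self]
    constructor
    · intro h; linarith
    · intro h; linarith
  · simp only [op, mem_ofPred_eq, Function.update_of_ne h]

theorem measurable_upd (e : E d) : Measurable fun U : Cfg d => Function.update U e (2 : ℝ) := by
  rw [measurable_pi_iff]
  intro e'
  by_cases h : e' = e
  · subst h
    simp only [Function.update_self]
    exact measurable_const
  · simp only [Function.update_of_ne h]
    exact measurable_pi_apply e'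

theorem prob_XS_edge {p q : ℝ} (hp : 0 ≤ p) (hpq : p ≤ q) (hq : q ≤ 1) {W T : Set (V d)}
    {S : Finset (V d)} {e : E d} (he : e ∈ bd S) (ho : out S e ∈ W) :
    (q - p) * (P d).real (XS p W T ↑S) ≤
      (P d).real (XS p W T ↑S ∩ {U : Cfg d | p < U e ∧ U e ≤ q}) := by
  obtain ⟨h1, h2, h3⟩ := bd_spec he
  have hclosed : ∀ U ∈ XS p W T ↑S, p < U e := by
    intro U hU
    by_contra hcon
    exact (Sep_of_SS hU).1 e (not_lt.1 hcon) _ h1 _ ⟨ho, h2⟩ h3
  set X' : Set (Cfg d) := (fun U : Cfg d => Function.update U e (2 : ℝ)) ⁻¹' (XS p W T ↑S) with hX'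
  have hmem : ∀ U : Cfg d, p < U e → (U ∈ X' ↔ U ∈ XS p W T ↑S) := by
    intro U hU
    rw [hX', mem_preimage]
    unfold XS
    rw [mem_ofPred_eq, mem_ofPred_eq, op_update (hpq.trans hq) hU]
  have hsub : XS p W T ↑S ⊆ X' := fun U hU => (hmem U (hclosed U hU)).2 hU
  have hsub2 : X' ∩ {U : Cfg d | p < U e ∧ U e ≤ q} ⊆
      XS p W T ↑S ∩ {U : Cfg d | p < U e ∧ U e ≤ q} := by
    rintro U ⟨hU, hU2⟩
    exact ⟨(hmem U hU2.1).1 hU, hU2⟩
  have hm : MeasurableSet X' := measurable_upd e (measurableSet_XS p W T ↑S)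
  have hm2 : MeasurableSet {U : Cfg d | p < U e ∧ U e ≤ q} :=
    (measurableSet_lt measurable_const (measurable_pi_apply e)).inter
      (measurableSet_le (measurable_pi_apply e) measurable_const)
  have hind := prob_inter hm hm2 (S := {e}ᶜ) (T := {e})
    (by
      intro U U' h
      have h4 : Function.update U e (2 : ℝ) = Function.update U' e 2 := by
        ext e'
        by_cases h5 : e' = e
        · subst h5
          rw [Function.update_self, Function.update_self]
        · rw [Function.update_of_ne h5, Function.update_of_ne h5]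
          exact h e' h5
      simp only [hX', mem_preimage, h4])
    (by
      intro U U' h
      have h4 := h e (mem_singleton e)
      simp only [mem_ofPred_eq, h4])
    disjoint_compl_left
  rw [prob_level e hp hpq hq] at hind
  calc (q - p) * (P d).real (XS p W T ↑S) ≤ (q - p) * (P d).real X' :=
        mul_le_mul_of_nonneg_left (measureReal_mono hsub) (by linarith)
    _ = (P d).real (X' ∩ {U : Cfg d | p < U e ∧ U e ≤ q}) := by rw [hind, mul_comm]
    _ ≤ _ := measureReal_mono hsub2

/-- the event that the edge `e` of the boundary of `S` is pivotal and opens between `p` and `q` -/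
def ev (p q : ℝ) (W T : Set (V d)) (S : Finset (V d)) (e : E d) : Set (Cfg d) :=
  {U | Conn (op p U) ↑S 0 (inn S e)} ∩ (XS p W T ↑S ∩ {U : Cfg d | p < U e ∧ U e ≤ q})

theorem measurableSet_level (p q : ℝ) (e : E d) :
    MeasurableSet {U : Cfg d | p < U e ∧ U e ≤ q} :=
  (measurableSet_lt measurable_const (measurable_pi_apply e)).inter
    (measurableSet_le (measurable_pi_apply e) measurable_const)

theorem measurableSet_ev (p q : ℝ) (W T : Set (V d)) (S : Finset (V d)) (e : E d) :
    MeasurableSet (ev p q W T S e) :=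
  (measurableSet_conn _ _ _ _).inter ((measurableSet_XS _ _ _ _).inter (measurableSet_level _ _ _))

theorem prob_ev {p q : ℝ} (hp : 0 ≤ p) (hpq : p ≤ q) (hq : q ≤ 1) {W T : Set (V d)}
    {S : Finset (V d)} (hSW : (↑S : Set (V d)) ⊆ W) (hST : Disjoint (↑S : Set (V d)) T) {e : E d}
    (he : e ∈ bd S) (ho : out S e ∈ W) :
    (q - p) * (P d).real (XS p W T ↑S) * tauW p ↑S 0 (inn S e) ≤
      (P d).real (ev p q W T S e) := by
  have hind := prob_inter (measurableSet_conn p (↑S) 0 (inn S e))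
    ((measurableSet_XS p W T ↑S).inter (measurableSet_level p q e)) (S := inner (↑S))
    (T := (inner (↑S : Set (V d)))ᶜ) (dependsOn_conn _ _ _ _)
    (by
      intro U U' h
      have hei : e ∈ (inner (↑S : Set (V d)))ᶜ := by
        rintro ⟨h1, h2⟩
        rcases mem_bd.1 he with ⟨h3, h4⟩ | ⟨h3, h4⟩
        · exact h4 h2
        · exact h3 h1
      have h4 := h e hei
      have h5 := XS_congr (p := p) hSW hST h
      apply propext
      constructor
      · rintro ⟨h6, h7⟩
        refine ⟨h5.1 h6, ?_⟩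
        rwa [mem_ofPred_eq, ← h4]
      · rintro ⟨h6, h7⟩
        refine ⟨h5.2 h6, ?_⟩
        rwa [mem_ofPred_eq, h4])
    disjoint_compl_right
  unfold ev
  rw [hind]
  have h1 := prob_XS_edge hp hpq hq (T := T) he ho
  have h2 : (P d).real {U : Cfg d | Conn (op p U) ↑S 0 (inn S e)} = tauW p ↑S 0 (inn S e) := rfl
  rw [h2, mul_comm]
  exact mul_le_mul_of_nonneg_left h1 (tauW_nonneg _ _ _ _)

theorem ev_sub {p q : ℝ} (hpq : p ≤ q) {W T : Set (V d)} {S : Finset (V d)}
    (hSW : (↑S : Set (V d)) ⊆ W) {e : E d} (he : e ∈ bd S) (ho : out S e ∈ W) :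
    ev p q W T S e ⊆ AA q W T := by
  rintro U ⟨h1, h2, h3⟩
  obtain ⟨h4, h5, h6⟩ := bd_spec he
  have h7 : ∃ y ∈ T, Conn (op p U) W (out S e) y := by
    by_contra hcon
    have h8 : out S e ∈ SS W T (op p U) := ⟨ho, hcon⟩
    have h9 : SS W T (op p U) = ↑S := h2
    rw [h9] at h8
    exact h5 h8
  obtain ⟨y, hy, hc⟩ := h7
  refine ⟨y, hy, ?_⟩
  have h8 : Conn (op q U) W 0 (inn S e) := Conn.mono (op_mono hpq U) hSW h1
  exact (Conn.snoc h8 ⟨hSW h4, ho, e, h3.2, h6⟩).trans (hc.mono (op_mono hpq U) (subset_refl _))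

theorem prob_two {p q : ℝ} (hp : 0 ≤ p) (hpq : p ≤ q) (hq : q ≤ 1) {e e' : E d} (hne : e ≠ e') :
    (P d).real ({U : Cfg d | p < U e ∧ U e ≤ q} ∩ {U : Cfg d | p < U e' ∧ U e' ≤ q}) =
      (q - p) ^ 2 := by
  have hind := prob_inter (measurableSet_level p q e) (measurableSet_level p q e') (S := {e})
    (T := {e'})
    (by
      intro U U' h
      have h4 := h e (mem_singleton e)
      simp only [mem_ofPred_eq, h4])
    (by
      intro U U' h
      have h4 := h e' (mem_singleton e')
      simp only [mem_ofPred_eq, h4])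
    (by rwa [Set.disjoint_singleton])
  rw [hind, prob_level e hp hpq hq, prob_level e' hp hpq hq, sq]

theorem AA_mono {p q : ℝ} (hpq : p ≤ q) (W T : Set (V d)) : AA (d := d) p W T ⊆ AA q W T := by
  rintro U ⟨y, hy, hc⟩
  exact ⟨y, hy, hc.mono (op_mono hpq U) (subset_refl _)⟩

/-- the differential inequality in integrated form -/
theorem dct_step {W T : Set (V d)} (hW : W.Finite) (h0 : (0 : V d) ∈ W)
    (hnb : ∀ x ∈ W \ T, ∀ y, Adj x y → y ∈ W) :
    ∃ K ≥ 0, ∀ p q : ℝ, 0 ≤ p → p ≤ q → q ≤ 1 → (∀ S : Finset (V d), 0 ∈ S → 1 ≤ phi p S) →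
      (q - p) * (1 - (P d).real (AA p W T)) - K * (q - p) ^ 2 ≤
        (P d).real (AA q W T) - (P d).real (AA p W T) := by
  classical
  set PF : Finset (Finset (V d)) := (hW.toFinset.powerset).filter
    (fun S => 0 ∈ S ∧ Disjoint (↑S : Set (V d)) T) with hPF
  refine ⟨∑ S ∈ PF, ((bd S).card : ℝ) ^ 2, Finset.sum_nonneg fun _ _ => by positivity, ?_⟩
  intro p q hp hpq hq hphi
  have hmem : ∀ S ∈ PF, (↑S : Set (V d)) ⊆ W ∧ (0 : V d) ∈ S ∧ Disjoint (↑S : Set (V d)) T := by
    intro S hS
    rw [hPF, Finset.mem_filter, Finset.mem_powerset] at hS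
    refine ⟨fun x hx => ?_, hS.2⟩
    exact hW.mem_toFinset.1 (hS.1 hx)
  have hout : ∀ S ∈ PF, ∀ e ∈ bd S, out S e ∈ W := by
    intro S hS e he
    obtain ⟨h1, h2, h3⟩ := bd_spec he
    obtain ⟨h4, h5, h6⟩ := hmem S hS
    exact hnb (inn S e) ⟨h4 h1, fun h => Set.disjoint_left.1 h6 h1 h⟩ _ ⟨e, h3⟩
  -- covering
  have hcov : 1 - (P d).real (AA p W T) ≤ ∑ S ∈ PF, (P d).real (XS p W T ↑S) := by
    rw [← probReal_compl_eq_one_sub (measurableSet_AA p W T)]
    refine le_trans (measureReal_mono ?_ (measure_ne_top (P d) _))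
      (measureReal_biUnion_finset_le _ _)
    intro U hU
    have hfin : (SS W T (op p U)).Finite := hW.subset (SS_sub _ _ _)
    refine mem_biUnion (x := hfin.toFinset) ?_ ?_
    · rw [Finset.mem_coe, hPF, Finset.mem_filter, Finset.mem_powerset]
      refine ⟨?_, ?_, ?_⟩
      · intro x hx
        rw [Set.Finite.mem_toFinset] at hx ⊢
        exact hx.1
      · rw [Set.Finite.mem_toFinset]
        exact ⟨h0, hU⟩
      · rw [Set.Finite.coe_toFinset, Set.disjoint_left]
        rintro x hx hxT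
        exact hx.2 ⟨x, hxT, Conn.refl hx.1⟩
    · unfold XS
      rw [mem_ofPred_eq, Set.Finite.coe_toFinset]
  -- one set
  have hone : ∀ S ∈ PF, (q - p) * (P d).real (XS p W T ↑S) ≤
      (P d).real (⋃ e ∈ bd S, ev p q W T S e) + ((bd S).card : ℝ) ^ 2 * (q - p) ^ 2 := by
    intro S hS
    obtain ⟨h4, h5, h6⟩ := hmem S hS
    have h7 := bonf (P d) (bd S) (ev p q W T S) (fun e _ => measurableSet_ev _ _ _ _ _ _)
      (ε := (q - p) ^ 2) (by positivity) (by
        intro e _ e' _ hne
        rw [← prob_two hp hpq hq hne]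
        apply measureReal_mono _ (measure_ne_top (P d) _)
        rintro U ⟨hU, hU'⟩
        exact ⟨hU.2.2, hU'.2.2⟩)
    refine le_trans ?_ h7
    have h8 : ∀ e ∈ bd S, (q - p) * (P d).real (XS p W T ↑S) * tauW p ↑S 0 (inn S e) ≤
        (P d).real (ev p q W T S e) := fun e he => prob_ev hp hpq hq h4 h6 he (hout S hS e he)
    refine le_trans ?_ (Finset.sum_le_sum h8)
    rw [← Finset.mul_sum]
    have h9 : 1 ≤ ∑ e ∈ bd S, tauW p ↑S 0 (inn S e) := by
      have h10 := hphi S h5
      unfold phi at h10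
      have h11 : 0 ≤ ∑ e ∈ bd S, tauW p ↑S 0 (inn S e) :=
        Finset.sum_nonneg fun _ _ => tauW_nonneg _ _ _ _
      nlinarith
    have h12 : 0 ≤ (q - p) * (P d).real (XS p W T ↑S) :=
      mul_nonneg (by linarith) measureReal_nonneg
    nlinarith
  -- disjointness
  have hdis : ∑ S ∈ PF, (P d).real (⋃ e ∈ bd S, ev p q W T S e) ≤
      (P d).real (AA q W T) - (P d).real (AA p W T) := by
    rw [← measureReal_sdiff (AA_mono hpq W T) (measurableSet_AA p W T),
      ← measureReal_biUnion_finset (μ := P d) ?_ ?_ (fun _ _ => measure_ne_top (P d) _)]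
    · apply measureReal_mono _ (measure_ne_top (P d) _)
      intro U hU
      rw [mem_iUnion₂] at hU
      obtain ⟨S, hS, hU⟩ := hU
      rw [mem_iUnion₂] at hU
      obtain ⟨e, he, hU⟩ := hU
      obtain ⟨h4, h5, h6⟩ := hmem S hS
      refine ⟨ev_sub hpq h4 he (hout S hS e he) hU, ?_⟩
      rintro ⟨y, hy, hc⟩
      have h7 : SS W T (op p U) = ↑S := hU.2.1
      have h8 : (0 : V d) ∈ SS W T (op p U) := by
        rw [h7]
        exact h5
      exact h8.2 ⟨y, hy, hc⟩
    · intro S _ S' _ hne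
      rw [Function.onFun, Set.disjoint_left]
      intro U hU hU'
      rw [mem_iUnion₂] at hU hU'
      obtain ⟨e, -, hU⟩ := hU
      obtain ⟨e', -, hU'⟩ := hU'
      apply hne
      have h7 : SS W T (op p U) = ↑S := hU.2.1
      have h8 : SS W T (op p U) = ↑S' := hU'.2.1
      rw [h7] at h8
      exact Finset.coe_injective h8
    · intro S _
      exact Finset.measurableSet_biUnion _ fun e _ => measurableSet_ev _ _ _ _ _ _
  have h1 : (q - p) * (1 - (P d).real (AA p W T)) ≤
      (q - p) * ∑ S ∈ PF, (P d).real (XS p W T ↑S) :=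
    mul_le_mul_of_nonneg_left hcov (by linarith)
  have h2 := Finset.sum_le_sum hone
  rw [Finset.sum_add_distrib, ← Finset.mul_sum, ← Finset.sum_mul] at h2
  linarith

end Pool.Agent.helper28.FPS
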